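import Pool.Agent.MP_f7f40d_pr.HD.Z4c

set_option autoImplicit false

namespace Pool.Agent.Results.MP_f7f40d_pr.AsymptoticDensity

open Pool.Agent.MP_f7f40d_pr Filter Topology

/-- High dimensional asymptotics of the critical Poisson density of the abelian sandpile:
`d ≤ λ_c(ℤ^d) ≤ d + C √(d log d)` for all `d ≥ 2` with an absolute constant `C`, and for every `ε > 0`
`λ_c(ℤ^d) ≤ d + (1 + ε) √(d log d)` for all large `d`; so `λ_c(ℤ^d) / d → 1`.  Moreover all densities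
above these bounds percolate. -/
theorem result :
    (∃ C : ℝ, 0 < C ∧ ∀ d : ℕ, 2 ≤ d →
      (∀ lam : ℝ, (d : ℝ) + C * Real.sqrt (d * Real.log d) ≤ lam → percProb d lam = 1) ∧
      (d : ℝ) ≤ critDensity d ∧ critDensity d ≤ (d : ℝ) + C * Real.sqrt (d * Real.log d)) ∧
    (∀ ε : ℝ, 0 < ε → ∃ d0 : ℕ, ∀ d : ℕ, d0 ≤ d →
      (∀ lam : ℝ, (d : ℝ) + (1 + ε) * Real.sqrt (d * Real.log d) ≤ lam → percProb d lam = 1) ∧
      critDensity d ≤ (d : ℝ) + (1 + ε) * Real.sqrt (d * Real.log d)) ∧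
    Tendsto (fun d : ℕ => critDensity d / d) atTop (𝓝 1) := by
  refine ⟨?_, fun ε hε => ?_, HD.tendsto_ratio⟩
  · obtain ⟨C, hC, h⟩ := HD.upper_all
    exact ⟨C, hC, fun d hd => ⟨(h d hd).1, HD.lower_all d hd, (h d hd).2⟩⟩
  · obtain ⟨d0, h2, h⟩ := HD.percProb_large ε hε
    refine ⟨d0, fun d hd => ⟨h d hd, critDensity_le ?_ (h d hd _ le_rfl)⟩⟩
    have hd2 : (2 : ℝ) ≤ d := by exact_mod_cast h2.trans hd
    have h3 := Real.sqrt_nonneg ((d : ℝ) * Real.log d)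
    have h4 := mul_nonneg (by linarith : (0 : ℝ) ≤ 1 + ε) h3
    linarith

end Pool.Agent.Results.MP_f7f40d_pr.AsymptoticDensity
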