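import Pool.Agent.MP_f7f40d_pr.LowMain

/-!
The critical density of the abelian sandpile on `ℤ^d` started from independent Poisson heights is
strictly larger than `d`, for every `d ≥ 2`, with an explicit lower bound for the difference.
-/

set_option autoImplicit false

open scoped ENNReal

namespace Pool.Agent.Results.MP_f7f40d_pr.LowerBound

open Pool.MP_f7f40d_pr

theorem result (d : ℕ) (hd : 2 ≤ d) :
    (d : ℝ≥0∞) + ENNReal.ofReal (1 / (2 ^ (d + 1) * (2 * d) ^ (3 ^ d) *
      (2 * 3 ^ d * (d + 1) + 2 * d) ^ (2 * d * 3 ^ d))) ≤ criticalDensity d ∧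
    (d : ℝ≥0∞) < criticalDensity d := by
  have key : (d : ℝ≥0∞) + ENNReal.ofReal (gain d) ≤ criticalDensity d := by
    unfold criticalDensity
    refine le_iInf (fun l => le_iInf (fun _ => le_iInf (fun hP => ?_)))
    have h := lower_bound hd l hP
    have h1 : (d : ℝ≥0∞) = ENNReal.ofReal (d : ℝ) := by rw [ENNReal.ofReal_natCast]
    have h2 : (l : ℝ≥0∞) = ENNReal.ofReal (l : ℝ) := by rw [ENNReal.ofReal_coe_nnreal]
    rw [h1, h2, ← ENNReal.ofReal_add (by positivity) (gain_pos hd).le]
    exact ENNReal.ofReal_le_ofReal h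
  refine ⟨key, lt_of_lt_of_le ?_ key⟩
  have h3 : 0 < ENNReal.ofReal (gain d) := ENNReal.ofReal_pos.2 (gain_pos hd)
  exact ENNReal.lt_add_right (ENNReal.natCast_ne_top d) h3.ne'

end Pool.Agent.Results.MP_f7f40d_pr.LowerBound
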