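import Pool.Agent.MP_f7f40d_pr.Sm9

set_option autoImplicit false

namespace Pool.Agent.Results.MP_f7f40d_pr.SmallDimensions

open Pool.Agent.MP_f7f40d_pr

/-- For every `d ≥ 2` the Poisson sandpile on `ℤ^d` percolates almost surely for every mean at
least `d + (d² + 1) / 20`, so the critical Poisson density is at most `d + (d² + 1) / 20`:
`9/4` for `d = 2`, `7/2` for `d = 3`, `4.85` for `d = 4`. -/
theorem result : ∀ d : ℕ, 2 ≤ d →
    (∀ lam : ℝ, (d : ℝ) + ((d : ℝ) ^ 2 + 1) / 20 ≤ lam → percProb d lam = 1) ∧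
      critDensity d ≤ (d : ℝ) + ((d : ℝ) ^ 2 + 1) / 20 := by
  intro d hd
  have h := percProb_small d hd
  have h0 : 0 < (d : ℝ) + ((d : ℝ) ^ 2 + 1) / 20 := by positivity
  exact ⟨fun lam hl => percProb_mono h0.le hl h, critDensity_le h0 h⟩

end Pool.Agent.Results.MP_f7f40d_pr.SmallDimensions
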