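import Pool.Agent.MP_f7f40d_pr.DuMain

set_option autoImplicit false

namespace Pool.Agent.Results.MP_f7f40d_pr.ThreeHalves

open Pool.Agent.MP_f7f40d_pr

/-- For every `d ≥ 1` the Poisson sandpile on `ℤ^d` percolates almost surely for every mean larger
than `3d/2`, so the critical Poisson density is at most `3d/2`. -/
theorem result : ∀ d : ℕ, 1 ≤ d →
    (∀ lam : ℝ, 3 * (d : ℝ) / 2 < lam → percProb d lam = 1) ∧ critDensity d ≤ 3 * (d : ℝ) / 2 :=
  fun d hd => ⟨fun _ h => percProb_gt d hd h, crit_le d hd⟩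

end Pool.Agent.Results.MP_f7f40d_pr.ThreeHalves
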